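import Pool.Agent.LAT.StmtsM

/-!
# M_POS: Gram determinants are positive
-/

set_option autoImplicit false

namespace Pool.Agent.LAT.H22

open Matrix

theorem gram_eq {m r : ℕ} (v : Fin r → Fin m → ℤ) :
    gram v = (Matrix.of v) * (Matrix.of v)ᵀ := by
  ext i j
  simp only [gram, Matrix.of_apply, Matrix.mul_apply, Matrix.transpose_apply, dotProduct]

theorem gram_det_nonneg {m r : ℕ} (v : Fin r → Fin m → ℤ) : 0 ≤ (gram v).det := by
  have h1 : (gram v).map (Int.castRingHom ℝ) =
      (Matrix.of v).map (Int.castRingHom ℝ) * ((Matrix.of v).map (Int.castRingHom ℝ))ᴴ := by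
    rw [gram_eq, Matrix.map_mul, Matrix.conjTranspose_eq_transpose_of_trivial, Matrix.transpose_map]
  have h2 := (Matrix.posSemidef_self_mul_conjTranspose
    ((Matrix.of v).map (Int.castRingHom ℝ))).det_nonneg
  rw [← h1] at h2
  have h3 : ((gram v).map (Int.castRingHom ℝ)).det = (((gram v).det : ℤ) : ℝ) := by
    have := (Int.castRingHom ℝ).map_det (gram v)
    simpa [RingHom.mapMatrix_apply] using this.symm
  rw [h3] at h2
  exact_mod_cast h2

theorem gram_det_ne {m r : ℕ} (v : Fin r → Fin m → ℤ) (hv : LinearIndependent ℤ v) :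
    (gram v).det ≠ 0 := by
  intro h
  obtain ⟨x, hx, hx0⟩ := Matrix.exists_mulVec_eq_zero_iff.2 h
  apply hx
  have h1 : x ᵥ* (Matrix.of v) ⬝ᵥ (x ᵥ* (Matrix.of v)) = 0 := by
    have h2 : x ⬝ᵥ (gram v *ᵥ x) = 0 := by rw [hx0, dotProduct_zero]
    rw [gram_eq, ← Matrix.mulVec_mulVec, Matrix.dotProduct_mulVec, Matrix.mulVec_transpose] at h2
    exact h2
  have h2 : x ᵥ* (Matrix.of v) = 0 := dotProduct_self_eq_zero.1 h1
  have h3 : ∑ i, x i • v i = 0 := by
    rw [← h2]
    ext j
    simp [Matrix.vecMul, dotProduct, Finset.sum_apply]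
  funext i
  exact (Fintype.linearIndependent_iff.1 hv) x h3 i

theorem pos : PosStmt := by
  have h1 : ∀ (m r : ℕ) (v : Fin r → Fin m → ℤ), LinearIndependent ℤ v →
      1 ≤ (gram v).det := by
    intro m r v hv
    have h2 := gram_det_nonneg v
    have h3 := gram_det_ne v hv
    omega
  refine ⟨h1, ?_, ?_⟩
  · intro m M
    apply h1
    exact (Module.finBasis ℤ M).linearIndependent.map' M.subtype
      (LinearMap.ker_eq_bot.2 M.injective_subtype)
  · intro m
    have h2 : rk (⊥ : Submodule ℤ (Fin m → ℤ)) = 0 := by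
      unfold rk
      exact finrank_bot ℤ _
    refine ⟨?_, h2⟩
    unfold gd
    have : IsEmpty (Fin (Module.finrank ℤ (⊥ : Submodule ℤ (Fin m → ℤ)))) := by
      have h3 : Module.finrank ℤ (⊥ : Submodule ℤ (Fin m → ℤ)) = 0 := h2
      rw [h3]
      infer_instance
    exact Matrix.det_isEmpty

end Pool.Agent.LAT.H22
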